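import Pool.Agent.helper82.KN.Spec

/-!
# Project kn (MP_8ffa71_co), row kn:R3H (the 3-rank)
-/

set_option autoImplicit false

open Finset Polynomial

namespace Pool.Agent.KN

theorem R3H_map {V F : Type} [Fintype V] [DecidableEq V] [Field F] (M N : Matrix V V ℤ) :
    (M * N).map (fun x : ℤ => (x : F)) =
      M.map (fun x : ℤ => (x : F)) * N.map (fun x : ℤ => (x : F)) := by
  ext u v
  rw [Matrix.map_apply, Matrix.mul_apply, Matrix.mul_apply]
  push_cast
  rfl

theorem R3H_one {V F : Type} [Fintype V] [DecidableEq V] [Field F] (u v : V) :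
    (1 : Matrix V V F) u v = (((1 : Matrix V V ℤ) u v : ℤ) : F) := by
  rw [Matrix.one_apply, Matrix.one_apply]
  by_cases h : u = v
  · rw [if_pos h, if_pos h, Int.cast_one]
  · rw [if_neg h, if_neg h, Int.cast_zero]

theorem R3H_cub {V : Type} [Fintype V] [DecidableEq V] {A : Matrix V V ℤ} (hA : Spec93 A)
    (u v : V) : (A * A * A) u v + 7 * (A * A) u v - 34 * A u v - 40 * (1 : Matrix V V ℤ) u v =
      120 := by
  have h1 := congrFun (congrFun hA.cub u) v
  simpa only [Matrix.sub_apply, Matrix.add_apply, Matrix.smul_apply, smul_eq_mul, JJ,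
    Matrix.of_apply, mul_one] using h1

theorem R3H_rk {V F : Type} [Fintype V] [DecidableEq V] [Field F] (C : Matrix V V F)
    (h : C.rank ≤ 1) (u v : V) : C u v * C v u = C u u * C v v := by
  unfold Matrix.rank at h
  rw [finrank_le_one_iff] at h
  obtain ⟨w, hw⟩ := h
  have h1 : ∀ y, ∃ c : F, ∀ x, C x y = c * (w : V → F) x := by
    intro y
    obtain ⟨c, hc⟩ := hw ⟨C.mulVecLin (Pi.single y 1), LinearMap.mem_range_self _ _⟩
    refine ⟨c, fun x => ?_⟩
    have h2 := congrArg (fun z : LinearMap.range C.mulVecLin => (z : V → F) x) hc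
    simp only [Submodule.coe_smul, Pi.smul_apply, smul_eq_mul, Matrix.mulVecLin_apply,
      Matrix.mulVec_single_one, Matrix.col_apply] at h2
    exact h2.symm
  obtain ⟨c, hc⟩ := h1 u
  obtain ⟨d, hd⟩ := h1 v
  rw [hc u, hc v, hd u, hd v]
  ring

theorem R3H (hSPC : SPC_stmt) (hSPZ : SPZ_stmt) (hRK3 : RK3_stmt) : R3H_stmt := by
  intro V _ _ A hA hr u v huv
  have h1 := hRK3 V (A.map (fun x : ℤ => (x : ZMod 3))) (hSPZ V A (hSPC V A hA) (ZMod 3)) (by
    have e : (A.map (fun x : ℤ => (x : ZMod 3)) - 1) *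
        ((A.map (fun x : ℤ => (x : ZMod 3)) + 1) * (A.map (fun x : ℤ => (x : ZMod 3)) + 1)) =
        (A * A * A).map (fun x : ℤ => (x : ZMod 3)) +
        (A * A).map (fun x : ℤ => (x : ZMod 3)) - A.map (fun x : ℤ => (x : ZMod 3)) - 1 := by
      rw [R3H_map, R3H_map]
      noncomm_ring
    rw [e]
    ext u v
    rw [Matrix.sub_apply, Matrix.sub_apply, Matrix.add_apply, Matrix.map_apply,
      Matrix.map_apply, Matrix.map_apply, Matrix.zero_apply, R3H_one]
    have h2 := R3H_cub hA u v
    rw [← Int.cast_add, ← Int.cast_sub, ← Int.cast_sub, ← Int.cast_zero,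
      ZMod.intCast_eq_intCast_iff_dvd_sub]
    push_cast
    omega)
  have h2 : ((A.map (fun x : ℤ => (x : ZMod 3))) * (A.map (fun x : ℤ => (x : ZMod 3))) - 1).rank
      ≤ 1 := by omega
  have h3 := R3H_rk _ h2 u v
  have hd : ∀ x, (A * A) x x = 20 := by
    intro x
    rw [Matrix.mul_apply, ← hA.row x]
    apply Finset.sum_congr rfl
    intro y _
    rw [hA.symm y x]
    rcases hA.zo x y with h | h <;> rw [h] <;> norm_num
  have hne : u ≠ v := by
    rintro rfl
    rw [hA.diag] at huv
    omega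
  have hnn : 0 ≤ (A * A) u v := by
    rw [Matrix.mul_apply]
    apply Finset.sum_nonneg
    intro y _
    rcases hA.zo u y with h | h <;> rcases hA.zo y v with h' | h' <;> rw [h, h'] <;> norm_num
  by_contra hlt
  have h0 : (A * A) u v = 0 := by omega
  rw [← R3H_map] at h3
  simp only [Matrix.sub_apply, Matrix.map_apply, hd, h0, Matrix.one_apply_ne hne,
    Matrix.one_apply_eq] at h3
  revert h3
  simp only [Int.cast_zero, sub_zero, zero_mul]
  decide

end Pool.Agent.KN
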