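import Pool.Agent.helper82.KN.Spec

/-!
# Project kn (MP_8ffa71_co), row kn:RKK (the 2-rank and the 3-rank of K(9,3))
-/

set_option autoImplicit false

open Finset Polynomial

namespace Pool.Agent.KN

theorem RKK_cn (u v : V93) :
    ((univ : Finset V93).filter (fun w => Disjoint u.1 w.1 ∧ Disjoint w.1 v.1)).card =
      Nat.choose (3 + (u.1 ∩ v.1).card) 3 := by
  have h1 : ((univ : Finset V93).filter (fun w => Disjoint u.1 w.1 ∧ Disjoint w.1 v.1)).map
      ⟨Subtype.val, Subtype.val_injective⟩ = Finset.powersetCard 3 ((u.1 ∪ v.1)ᶜ) := by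
    ext s
    simp only [Finset.mem_map, mem_filter, mem_univ, true_and, Function.Embedding.coeFn_mk,
      mem_powersetCard]
    constructor
    · rintro ⟨w, ⟨h1, h2⟩, rfl⟩
      refine ⟨?_, w.2⟩
      intro x hx
      rw [mem_compl, mem_union]
      rintro (h | h)
      · exact (Finset.disjoint_left.1 h1 h) hx
      · exact (Finset.disjoint_left.1 h2 hx) h
    · rintro ⟨h1, h2⟩
      refine ⟨⟨s, h2⟩, ⟨?_, ?_⟩, rfl⟩
      · rw [Finset.disjoint_left]
        intro x hx hx'
        have h3 := h1 hx'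
        rw [mem_compl, mem_union] at h3
        exact h3 (Or.inl hx)
      · rw [Finset.disjoint_left]
        intro x hx' hx
        have h3 := h1 hx'
        rw [mem_compl, mem_union] at h3
        exact h3 (Or.inr hx)
  rw [← Finset.card_map, h1, card_powersetCard, card_compl, Fintype.card_fin]
  have h2 := Finset.card_union_add_card_inter u.1 v.1
  rw [u.2, v.2] at h2
  congr 1
  omega

theorem RKK_a (u v : V93) :
    K93.adjMatrix ℤ u v = if (u.1 ∩ v.1).card = 0 then 1 else 0 := by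
  rw [SimpleGraph.adjMatrix_apply]
  have h : K93.Adj u v ↔ (u.1 ∩ v.1).card = 0 := by
    rw [Finset.card_eq_zero, ← Finset.disjoint_iff_inter_eq_empty]
    rfl
  by_cases h1 : K93.Adj u v
  · rw [if_pos h1, if_pos (h.1 h1)]
  · rw [if_neg h1, if_neg (fun h2 => h1 (h.2 h2))]

theorem RKK_aa (u v : V93) :
    (K93.adjMatrix ℤ * K93.adjMatrix ℤ) u v = (Nat.choose (3 + (u.1 ∩ v.1).card) 3 : ℕ) := by
  rw [← RKK_cn, Matrix.mul_apply, Finset.card_filter]
  push_cast
  apply Finset.sum_congr rfl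
  intro w _
  rw [SimpleGraph.adjMatrix_apply, SimpleGraph.adjMatrix_apply]
  have h1 : K93.Adj u w ↔ Disjoint u.1 w.1 := Iff.rfl
  have h2 : K93.Adj w v ↔ Disjoint w.1 v.1 := Iff.rfl
  simp only [h1, h2]
  by_cases h3 : Disjoint u.1 w.1 <;> by_cases h4 : Disjoint w.1 v.1 <;> simp [h3, h4]

theorem RKK_map {V F : Type} [Fintype V] [DecidableEq V] [Field F] (M N : Matrix V V ℤ) :
    (M * N).map (fun x : ℤ => (x : F)) =
      M.map (fun x : ℤ => (x : F)) * N.map (fun x : ℤ => (x : F)) := by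
  ext u v
  rw [Matrix.map_apply, Matrix.mul_apply, Matrix.mul_apply]
  push_cast
  rfl

theorem RKK_k (u v : V93) : (u.1 ∩ v.1).card ≤ 3 := by
  have h := Finset.card_le_card (Finset.inter_subset_left : u.1 ∩ v.1 ⊆ u.1)
  rw [u.2] at h
  exact h

theorem RKK_one (u v : V93) (F : Type) [Field F] :
    (1 : Matrix V93 V93 F) u v = (((1 : Matrix V93 V93 ℤ) u v : ℤ) : F) := by
  rw [Matrix.one_apply, Matrix.one_apply]
  by_cases h : u = v
  · rw [if_pos h, if_pos h, Int.cast_one]
  · rw [if_neg h, if_neg h, Int.cast_zero]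

theorem RKK_cub (hSPK : SPK_stmt) (u v : V93) :
    (K93.adjMatrix ℤ * K93.adjMatrix ℤ * K93.adjMatrix ℤ) u v +
      7 * (K93.adjMatrix ℤ * K93.adjMatrix ℤ) u v - 34 * K93.adjMatrix ℤ u v -
      40 * (1 : Matrix V93 V93 ℤ) u v = 120 := by
  have h1 := congrFun (congrFun hSPK.cub u) v
  simpa only [Matrix.sub_apply, Matrix.add_apply, Matrix.smul_apply, smul_eq_mul, JJ,
    Matrix.of_apply, mul_one] using h1

theorem RKK (hSPK : SPK_stmt) (hSPC : SPC_stmt) (hSPZ : SPZ_stmt) (hRK2 : RK2_stmt)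
    (hRK3 : RK3_stmt) : RKK_stmt := by
  have hch := hSPZ V93 (K93.adjMatrix ℤ) (hSPC V93 (K93.adjMatrix ℤ) hSPK)
  constructor
  · have h1 := hRK2 V93 ((K93.adjMatrix ℤ).map (fun x : ℤ => (x : ZMod 2))) (hch (ZMod 2)) (by
      rw [← RKK_map, ← RKK_map]
      ext u v
      rw [Matrix.map_apply, Matrix.map_apply, ZMod.intCast_eq_intCast_iff_dvd_sub]
      have h2 := RKK_cub hSPK u v
      push_cast
      omega)
    have h2 : (K93.adjMatrix ℤ).map (fun x : ℤ => (x : ZMod 2)) *
        (K93.adjMatrix ℤ).map (fun x : ℤ => (x : ZMod 2)) +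
        (K93.adjMatrix ℤ).map (fun x : ℤ => (x : ZMod 2)) = 0 := by
      rw [← RKK_map]
      ext u v
      rw [Matrix.add_apply, Matrix.map_apply, Matrix.map_apply, Matrix.zero_apply, RKK_aa, RKK_a]
      have h3 := RKK_k u v
      generalize (u.1 ∩ v.1).card = k at h3 ⊢
      interval_cases k <;> decide
    rw [h2, Matrix.rank_zero, add_zero] at h1
    exact h1.le
  · have h1 := hRK3 V93 ((K93.adjMatrix ℤ).map (fun x : ℤ => (x : ZMod 3))) (hch (ZMod 3)) (by
      have e : ((K93.adjMatrix ℤ).map (fun x : ℤ => (x : ZMod 3)) - 1) *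
          (((K93.adjMatrix ℤ).map (fun x : ℤ => (x : ZMod 3)) + 1) *
            ((K93.adjMatrix ℤ).map (fun x : ℤ => (x : ZMod 3)) + 1)) =
          (K93.adjMatrix ℤ * K93.adjMatrix ℤ * K93.adjMatrix ℤ).map (fun x : ℤ => (x : ZMod 3)) +
          (K93.adjMatrix ℤ * K93.adjMatrix ℤ).map (fun x : ℤ => (x : ZMod 3)) -
          (K93.adjMatrix ℤ).map (fun x : ℤ => (x : ZMod 3)) - 1 := by
        rw [RKK_map, RKK_map]
        noncomm_ring
      rw [e]
      ext u v
      rw [Matrix.sub_apply, Matrix.sub_apply, Matrix.add_apply, Matrix.map_apply,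
        Matrix.map_apply, Matrix.map_apply, Matrix.zero_apply, RKK_one]
      have h2 := RKK_cub hSPK u v
      rw [← Int.cast_add, ← Int.cast_sub, ← Int.cast_sub, ← Int.cast_zero,
        ZMod.intCast_eq_intCast_iff_dvd_sub]
      push_cast
      omega)
    have h2 : (K93.adjMatrix ℤ).map (fun x : ℤ => (x : ZMod 3)) *
        (K93.adjMatrix ℤ).map (fun x : ℤ => (x : ZMod 3)) - 1 =
        Matrix.vecMulVec (fun _ => (1 : ZMod 3)) (fun _ => (1 : ZMod 3)) := by
      rw [← RKK_map]
      ext u v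
      rw [Matrix.sub_apply, Matrix.map_apply, Matrix.vecMulVec_apply, RKK_aa, Matrix.one_apply]
      have h3 := RKK_k u v
      have h4 : u = v ↔ (u.1 ∩ v.1).card = 3 := by
        constructor
        · rintro rfl
          rw [Finset.inter_self, u.2]
        · intro h
          have h5 : u.1 ∩ v.1 = u.1 := Finset.eq_of_subset_of_card_le Finset.inter_subset_left
            (by rw [h, u.2])
          have h6 : u.1 ∩ v.1 = v.1 := Finset.eq_of_subset_of_card_le Finset.inter_subset_right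
            (by rw [h, v.2])
          exact Subtype.ext (h5.symm.trans h6)
      simp only [h4]
      generalize (u.1 ∩ v.1).card = k at h3 ⊢
      interval_cases k <;> decide
    have h3 : ((K93.adjMatrix ℤ).map (fun x : ℤ => (x : ZMod 3)) *
        (K93.adjMatrix ℤ).map (fun x : ℤ => (x : ZMod 3)) - 1).rank ≤ 1 := by
      rw [h2]
      exact Matrix.rank_vecMulVec_le _ _
    omega

end Pool.Agent.KN
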